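import Mathlib

/-!
# The group ideal of a free ultrafilter

`G` is the group of the finitely supported functions `ℕ → 𝔽₂`, `K` the compact group of all
functions `ℕ → 𝔽₂`, and `P p` the subgroup of the functions that vanish on a set of the ultrafilter `p`.
The group ideal consists of the subsets of `G` whose closure in `K` is contained in `P p`.
-/

set_option autoImplicit false

open Set Filter Topology Pointwise

namespace Q184.Ultra

/-- the group of the finitely supported functions `ℕ → 𝔽₂` -/
abbrev G := Multiplicative (ℕ →₀ ZMod 2)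

instance : Countable G := inferInstanceAs (Countable (ℕ →₀ ZMod 2))

/-- the compact space of the functions `ℕ → 𝔽₂` -/
abbrev K := ℕ → Bool

/-- the inclusion -/
def inc (g : G) : K := fun n => decide (Multiplicative.toAdd g n = 1)

theorem inc_mul_inv (g h : G) (n : ℕ) : inc (g * h⁻¹) n = xor (inc g n) (inc h n) := by
  have key : ∀ a b : ZMod 2, decide (a + -b = 1) = xor (decide (a = 1)) (decide (b = 1)) := by
    decide
  exact key _ _

theorem inc_fin (g : G) : ∀ᶠ n in cofinite, inc g n = false := by
  have h : ((Multiplicative.toAdd g : ℕ →₀ ZMod 2).support : Set ℕ).Finite := Finset.finite_toSet _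
  filter_upwards [h.compl_mem_cofinite] with n hn
  have h1 : Multiplicative.toAdd g n = 0 := Finsupp.notMem_support_iff.1 hn
  show decide (Multiplicative.toAdd g n = 1) = false
  rw [h1]
  decide

/-- the sum -/
def add (x y : K) : K := fun n => xor (x n) (y n)

theorem add_continuous : Continuous fun q : K × K => add q.1 q.2 := by
  refine continuous_pi fun n => ?_
  have h : Continuous fun b : Bool × Bool => xor b.1 b.2 := continuous_of_discreteTopology
  have h1 : Continuous fun q : K × K => q.1 n := (continuous_apply n).comp continuous_fst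
  have h2 : Continuous fun q : K × K => q.2 n := (continuous_apply n).comp continuous_snd
  exact h.comp (h1.prodMk h2)

theorem inc_div (g h : G) : inc (g * h⁻¹) = add (inc g) (inc h) := funext (inc_mul_inv g h)

/-- the functions that vanish on a set of the ultrafilter -/
def P (p : Ultrafilter ℕ) : Set K := {x | ∀ᶠ n in (p : Filter ℕ), x n = false}

theorem not_P {p : Ultrafilter ℕ} {x : K} (hx : x ∉ P p) : ∀ᶠ n in (p : Filter ℕ), x n = true := by
  have h1 : ¬ ∀ᶠ n in (p : Filter ℕ), x n = false := hx
  rw [← Ultrafilter.eventually_not] at h1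
  filter_upwards [h1] with n hn
  simpa using hn

theorem add_P {p : Ultrafilter ℕ} {x y : K} (hx : x ∈ P p) (hy : y ∈ P p) : add x y ∈ P p := by
  have h1 : ∀ᶠ n in (p : Filter ℕ), x n = false := hx
  have h2 : ∀ᶠ n in (p : Filter ℕ), y n = false := hy
  show ∀ᶠ n in (p : Filter ℕ), xor (x n) (y n) = false
  filter_upwards [h1, h2] with n h3 h4
  rw [h3, h4]
  rfl

theorem add_not_P {p : Ultrafilter ℕ} {x y : K} (hx : x ∉ P p) (hy : y ∉ P p) : add x y ∈ P p := by
  show ∀ᶠ n in (p : Filter ℕ), xor (x n) (y n) = false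
  filter_upwards [not_P hx, not_P hy] with n h3 h4
  rw [h3, h4]
  rfl

/-- the group ideal -/
def I (p : Ultrafilter ℕ) : Set (Set G) := {A | closure (inc '' A) ⊆ P p}

variable {p : Ultrafilter ℕ}

theorem I_union {A B : Set G} (hA : A ∈ I p) (hB : B ∈ I p) : A ∪ B ∈ I p := by
  show closure (inc '' (A ∪ B)) ⊆ P p
  rw [image_union, closure_union]
  exact union_subset hA hB

theorem I_mono {A B : Set G} (hA : A ∈ I p) (h : B ⊆ A) : B ∈ I p :=
  (closure_mono (image_mono h)).trans hA

theorem inc_P (hp : (p : Filter ℕ) ≤ cofinite) (g : G) : inc g ∈ P p := hp (inc_fin g)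

theorem I_finite (hp : (p : Filter ℕ) ≤ cofinite) {A : Set G} (hA : A.Finite) : A ∈ I p := by
  show closure (inc '' A) ⊆ P p
  rw [(hA.image inc).isClosed.closure_eq]
  rintro _ ⟨g, -, rfl⟩
  exact inc_P hp g

theorem I_div {A B : Set G} (hA : A ∈ I p) (hB : B ∈ I p) : A * B⁻¹ ∈ I p := by
  let Z : Set K := (fun q : K × K => add q.1 q.2) '' (closure (inc '' A) ×ˢ closure (inc '' B))
  have hZ : IsCompact Z := (isClosed_closure.isCompact.prod isClosed_closure.isCompact).image
    add_continuous
  have h1 : inc '' (A * B⁻¹) ⊆ Z := by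
    rintro _ ⟨_, ⟨a, ha, b, hb, rfl⟩, rfl⟩
    refine ⟨(inc a, inc b⁻¹), ⟨subset_closure ⟨a, ha, rfl⟩, subset_closure ⟨b⁻¹, hb, rfl⟩⟩, ?_⟩
    have h2 := inc_div a b⁻¹
    rw [inv_inv] at h2
    exact h2.symm
  refine (closure_minimal h1 hZ.isClosed).trans ?_
  rintro _ ⟨⟨x, y⟩, ⟨hx, hy⟩, rfl⟩
  exact add_P (hA hx) (hB hy)

/-- the initial segments -/
noncomputable def seg (n : ℕ) : G := Multiplicative.ofAdd (∑ i ∈ Finset.range n, Finsupp.single i 1)

theorem inc_seg (n m : ℕ) (h : m < n) : inc (seg n) m = true := by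
  have h1 : (∑ i ∈ Finset.range n, Finsupp.single i (1 : ZMod 2)) m = 1 := by
    rw [Finsupp.finsetSum_apply]
    rw [Finset.sum_eq_single m]
    · exact Finsupp.single_eq_same
    · intro i _ hi
      exact Finsupp.single_eq_of_ne (Ne.symm hi)
    · intro h2
      exact absurd (Finset.mem_range.2 h) h2
  show decide ((∑ i ∈ Finset.range n, Finsupp.single i (1 : ZMod 2)) m = 1) = true
  rw [h1]
  decide

theorem I_proper : (univ : Set G) ∉ I p := by
  intro h
  have h1 : (fun _ => true : K) ∈ closure (inc '' (univ : Set G)) := by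
    refine mem_closure_of_tendsto (f := fun n => inc (seg n)) (b := atTop) ?_
      (Eventually.of_forall fun n => ⟨seg n, mem_univ _, rfl⟩)
    rw [tendsto_pi_nhds]
    intro m
    refine tendsto_nhds_of_eventually_eq ?_
    filter_upwards [eventually_gt_atTop m] with n hn
    exact inc_seg n m hn
  have h2 : ∀ᶠ n in (p : Filter ℕ), true = false := h h1
  obtain ⟨n, hn⟩ := h2.exists
  exact Bool.false_ne_true hn.symm

/-- unbounded sets contain sequences converging to a point outside `P` -/
theorem exists_seq {A : Set G} (hA : A ∉ I p) :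
    ∃ (x : K) (a : ℕ → G), x ∉ P p ∧ (∀ n, a n ∈ A) ∧ Tendsto (fun n => inc (a n)) atTop (𝓝 x) := by
  obtain ⟨x, hx, hxP⟩ := not_subset.1 hA
  obtain ⟨s, hs, hlim⟩ := mem_closure_iff_seq_limit.1 hx
  choose a ha hsa using hs
  refine ⟨x, a, hxP, ha, ?_⟩
  refine hlim.congr fun n => ?_
  rw [hsa]

theorem range_not_mem {x : K} {a : ℕ → G} (hx : x ∉ P p)
    (h : Tendsto (fun n => inc (a n)) atTop (𝓝 x)) : range a ∉ I p := by
  intro h1
  apply hx
  apply h1
  exact mem_closure_of_tendsto h (Eventually.of_forall fun n => ⟨a n, ⟨n, rfl⟩, rfl⟩)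

/-- **linking of unbounded sets** -/
theorem linked (hp : (p : Filter ℕ) ≤ cofinite) {A B : Set G} (hA : A ∉ I p) (hB : B ∉ I p) :
    ∃ M ∈ I p, ∃ a : ℕ → G, (∀ n, a n ∈ A) ∧ (∀ n, ∃ m ∈ M, ∃ b ∈ B, m * b = a n) ∧
      range a ∉ I p := by
  obtain ⟨x, a, hx, ha, hax⟩ := exists_seq hA
  obtain ⟨y, b, hy, hb, hby⟩ := exists_seq hB
  have hlim : Tendsto (fun n => inc (a n * (b n)⁻¹)) atTop (𝓝 (add x y)) := by
    have h1 := (add_continuous.tendsto (x, y)).comp (hax.prodMk_nhds hby)
    refine h1.congr fun n => ?_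
    exact (inc_div (a n) (b n)).symm
  refine ⟨range fun n => a n * (b n)⁻¹, ?_, a, ha, ?_, range_not_mem hx hax⟩
  · show closure (inc '' range fun n => a n * (b n)⁻¹) ⊆ P p
    have h2 : inc '' range (fun n => a n * (b n)⁻¹) ⊆
        insert (add x y) (range fun n => inc (a n * (b n)⁻¹)) := by
      rintro _ ⟨_, ⟨n, rfl⟩, rfl⟩
      exact Or.inr ⟨n, rfl⟩
    refine (closure_minimal h2 hlim.isCompact_insert_range.isClosed).trans ?_
    rintro z (rfl | ⟨n, rfl⟩)
    · exact add_not_P hx hy
    · exact inc_P hp _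
  · intro n
    exact ⟨_, ⟨n, rfl⟩, b n, hb n, inv_mul_cancel_right _ _⟩

/-- **no countable base** -/
theorem no_countable (hp : (p : Filter ℕ) ≤ cofinite) (C : ℕ → Set G) (hC : ∀ n, C n ∈ I p) :
    ∃ A ∈ I p, ∀ n, ¬ A ⊆ C n := by
  by_contra hcon
  push Not at hcon
  -- the subgroup is a countable union of closed sets
  have h1 : ∀ x ∈ P p, ∃ n, x ∈ closure (inc '' C n) := by
    intro x hx
    -- truncations
    let s : ℕ → G := fun n => Multiplicative.ofAdd
      (∑ i ∈ Finset.range n, Finsupp.single i (if x i = true then (1 : ZMod 2) else 0))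
    have hs : ∀ n m, m < n → inc (s n) m = x m := by
      intro n m h
      have h1 : (∑ i ∈ Finset.range n, Finsupp.single i (if x i = true then (1 : ZMod 2) else 0)) m =
          if x m = true then (1 : ZMod 2) else 0 := by
        rw [Finsupp.finsetSum_apply]
        rw [Finset.sum_eq_single m]
        · exact Finsupp.single_eq_same
        · intro i _ hi
          exact Finsupp.single_eq_of_ne (Ne.symm hi)
        · intro h2
          exact absurd (Finset.mem_range.2 h) h2
      show decide ((∑ i ∈ Finset.range n, Finsupp.single i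
        (if x i = true then (1 : ZMod 2) else 0)) m = 1) = x m
      rw [h1]
      cases x m <;> decide
    have hlim : Tendsto (fun n => inc (s n)) atTop (𝓝 x) := by
      rw [tendsto_pi_nhds]
      intro m
      refine tendsto_nhds_of_eventually_eq ?_
      filter_upwards [eventually_gt_atTop m] with n hn
      exact hs n m hn
    have hmem : range s ∈ I p := by
      show closure (inc '' range s) ⊆ P p
      have h2 : inc '' range s ⊆ insert x (range fun n => inc (s n)) := by
        rintro _ ⟨_, ⟨n, rfl⟩, rfl⟩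
        exact Or.inr ⟨n, rfl⟩
      refine (closure_minimal h2 hlim.isCompact_insert_range.isClosed).trans ?_
      rintro z (rfl | ⟨n, rfl⟩)
      · exact hx
      · exact inc_P hp _
    obtain ⟨n, hn⟩ := hcon _ hmem
    exact ⟨n, mem_closure_of_tendsto hlim (Eventually.of_forall fun k => ⟨s k, hn ⟨k, rfl⟩, rfl⟩)⟩
  let one : K := fun _ => true
  have hadd : Continuous fun x : K => add one x := by
    exact add_continuous.comp (Continuous.prodMk continuous_const continuous_id)
  let F : ℕ ⊕ ℕ → Set K := Sum.elim (fun n => closure (inc '' C n))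
    fun n => (fun x => add one x) ⁻¹' closure (inc '' C n)
  have hF : ∀ i, IsClosed (F i) := by
    rintro (n | n)
    · exact isClosed_closure
    · exact isClosed_closure.preimage hadd
  have hU : ⋃ i, F i = univ := by
    rw [eq_univ_iff_forall]
    intro x
    rw [mem_iUnion]
    by_cases hx : x ∈ P p
    · obtain ⟨n, hn⟩ := h1 x hx
      exact ⟨Sum.inl n, hn⟩
    · have hone : one ∉ P p := by
        intro h
        have h2 : ∀ᶠ n in (p : Filter ℕ), true = false := h
        obtain ⟨n, hn⟩ := h2.exists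
        exact Bool.false_ne_true hn.symm
      obtain ⟨n, hn⟩ := h1 _ (add_not_P hone hx)
      exact ⟨Sum.inr n, hn⟩
  obtain ⟨i, x, hx⟩ := nonempty_interior_of_iUnion_of_closed hF hU
  -- a basic open set
  rw [mem_interior] at hx
  obtain ⟨O, hO, hOo, hxO⟩ := hx
  -- modify x far out
  have hmod : ∀ c : Bool, ∃ y ∈ O, ∀ᶠ n in cofinite, y n = c := by
    intro c
    let y : ℕ → K := fun n m => if m < n then x m else c
    have hy : Tendsto y atTop (𝓝 x) := by
      rw [tendsto_pi_nhds]
      intro m
      refine tendsto_nhds_of_eventually_eq ?_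
      filter_upwards [eventually_gt_atTop m] with n hn
      show (if m < n then x m else c) = x m
      rw [if_pos hn]
    obtain ⟨n, hn⟩ := (hy.eventually (hOo.mem_nhds hxO)).exists
    refine ⟨y n, hn, ?_⟩
    rw [Nat.cofinite_eq_atTop]
    filter_upwards [eventually_ge_atTop n] with m hm
    show (if m < n then x m else c) = c
    rw [if_neg (by omega)]
  rcases i with n | n
  · obtain ⟨y, hy, hyc⟩ := hmod true
    have h2 : y ∈ P p := hC n (hO hy)
    have h3 : ∀ᶠ n in (p : Filter ℕ), y n = false := h2
    have h4 := (hp hyc : ∀ᶠ n in (p : Filter ℕ), y n = true)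
    obtain ⟨m, hm1, hm2⟩ := (h3.and h4).exists
    rw [hm1] at hm2
    exact Bool.false_ne_true hm2
  · obtain ⟨y, hy, hyc⟩ := hmod false
    have h2 : add one y ∈ P p := hC n (hO hy)
    have h3 : ∀ᶠ n in (p : Filter ℕ), xor true (y n) = false := h2
    have h4 := (hp hyc : ∀ᶠ n in (p : Filter ℕ), y n = false)
    obtain ⟨m, hm1, hm2⟩ := (h3.and h4).exists
    rw [hm2] at hm1
    exact absurd hm1 (by decide)

end Q184.Ultra
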